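import Mathlib

/-!
# Project EV, leaf SP: the saddle point lemma

A real polynomial `p` with a circle `|z| = r` on which `log p` is close to its Gaussian
approximation around the mean `k` has `p_(k-1) p_(k+1) < p_k ^ 2`.
-/

set_option autoImplicit false

open MeasureTheory Complex intervalIntegral
open scoped Real

namespace Pool.Agent.Helper86.EV

/-- the value of `p` at `r e^(i th)` -/
noncomputable def val (p : Polynomial ℝ) (r th : ℝ) : ℂ :=
  (p.map (algebraMap ℝ ℂ)).eval ((r : ℂ) * cexp ((th : ℂ) * I))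

theorem val_eq (p : Polynomial ℝ) (r th : ℝ) :
    val p r th = ∑ i ∈ Finset.range (p.natDegree + 1),
      ((p.coeff i * r ^ i : ℝ) : ℂ) * cexp (((i : ℂ) * I) * th) := by
  unfold val
  rw [Polynomial.eval_eq_sum_range, Polynomial.natDegree_map]
  refine Finset.sum_congr rfl fun i _ => ?_
  rw [Polynomial.coeff_map, mul_pow, ← Complex.exp_nat_mul]
  push_cast
  simp only [coe_algebraMap]
  rw [← mul_assoc]
  congr 2
  ring

theorem continuous_val (p : Polynomial ℝ) (r : ℝ) : Continuous (val p r) := by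
  have h : val p r = fun th : ℝ => ∑ i ∈ Finset.range (p.natDegree + 1),
      ((p.coeff i * r ^ i : ℝ) : ℂ) * cexp (((i : ℂ) * I) * th) := funext (val_eq p r)
  rw [h]
  fun_prop

theorem int_exp (m : ℤ) : ∫ th in (-π)..π, cexp (((m : ℂ) * I) * (th : ℂ)) =
    if m = 0 then ((2 * π : ℝ) : ℂ) else 0 := by
  split_ifs with h
  · subst h
    simp
    ring
  · have hc : ((m : ℂ) * I) ≠ 0 := mul_ne_zero (Int.cast_ne_zero.2 h) I_ne_zero
    rw [integral_exp_mul_complex hc]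
    have h1 : cexp ((m : ℂ) * I * ((π : ℝ) : ℂ)) = cexp ((m : ℂ) * I * ((-π : ℝ) : ℂ)) := by
      have : (m : ℂ) * I * ((π : ℝ) : ℂ) = (m : ℂ) * I * ((-π : ℝ) : ℂ) + m * (2 * π * I) := by
        push_cast
        ring
      rw [this, Complex.exp_add, Complex.exp_int_mul_two_pi_mul_I, mul_one]
    rw [h1, sub_self, zero_div]

theorem fourier (p : Polynomial ℝ) (r : ℝ) (m : ℕ) :
    ∫ th in (-π)..π, val p r th * cexp (-((m : ℂ) * I) * (th : ℂ)) =
      ((2 * π * (p.coeff m * r ^ m) : ℝ) : ℂ) := by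
  have h1 : ∀ th : ℝ, val p r th * cexp (-((m : ℂ) * I) * (th : ℂ)) =
      ∑ i ∈ Finset.range (p.natDegree + 1), ((p.coeff i * r ^ i : ℝ) : ℂ) *
        cexp (((((i : ℤ) - (m : ℤ) : ℤ) : ℂ) * I) * th) := fun th => by
    rw [val_eq, Finset.sum_mul]
    refine Finset.sum_congr rfl fun i _ => ?_
    rw [mul_assoc, ← Complex.exp_add]
    congr 2
    push_cast
    ring
  simp_rw [h1]
  rw [intervalIntegral.integral_finsetSum]
  · simp_rw [intervalIntegral.integral_const_mul, int_exp]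
    have h2 : ∀ i ∈ Finset.range (p.natDegree + 1), ((p.coeff i * r ^ i : ℝ) : ℂ) *
        (if (i : ℤ) - (m : ℤ) = 0 then ((2 * π : ℝ) : ℂ) else 0) =
        if i = m then ((2 * π * (p.coeff m * r ^ m) : ℝ) : ℂ) else 0 := fun i _ => by
      by_cases h : i = m
      · subst h
        simp
        ring
      · rw [if_neg, if_neg h, mul_zero]
        omega
    rw [Finset.sum_congr rfl h2, Finset.sum_ite_eq']
    split_ifs with h
    · rfl
    · rw [Finset.mem_range, not_lt] at h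
      rw [Polynomial.coeff_eq_zero_of_natDegree_lt (by omega)]
      simp
  · intro i _
    apply Continuous.intervalIntegrable
    fun_prop

/-! ### the local Gaussian approximation -/

theorem pow_le_exp {n : ℕ} (hn : n ≤ 2) {x : ℝ} (hx : 0 ≤ x) :
    x ^ (3 + n) ≤ 3073 * rexp (x ^ 2 / 8) := by
  have h1 : x ^ (3 + n) ≤ 1 + x ^ 6 := by
    by_cases h : x ≤ 1
    · have h0 := pow_le_one₀ (n := 3 + n) hx h
      have h6 : 0 ≤ x ^ 6 := by positivity
      linarith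
    · have h0 : x ^ (3 + n) ≤ x ^ 6 := pow_le_pow_right₀ (by linarith) (by omega)
      linarith
  have h2 : (x ^ 2 / 8) ^ 3 / (Nat.factorial 3 : ℝ) ≤ rexp (x ^ 2 / 8) :=
    Real.pow_div_factorial_le_exp (x ^ 2 / 8) (by positivity) 3
  have h3 : 1 ≤ rexp (x ^ 2 / 8) := Real.one_le_exp (by positivity)
  have h4 : (x ^ 2 / 8) ^ 3 / (Nat.factorial 3 : ℝ) = x ^ 6 / 3072 := by
    norm_num [Nat.factorial]
    ring
  rw [h4] at h2
  linarith

theorem local_bound {C1 v x : ℝ} (h1 : 0 < C1) (hx : |x| ≤ 1 / (4 * C1)) {E : ℂ}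
    (hE : ‖E‖ ≤ C1 * v ^ 2 * |x| ^ 3) :
    ‖cexp (((-(v ^ 2 * x ^ 2 / 2) : ℝ) : ℂ) + E) - cexp ((-(v ^ 2 * x ^ 2 / 2) : ℝ) : ℂ)‖ ≤
      C1 * v ^ 2 * |x| ^ 3 * rexp (-(v ^ 2 * x ^ 2 / 4)) := by
  have h2 : cexp (((-(v ^ 2 * x ^ 2 / 2) : ℝ) : ℂ) + E) - cexp ((-(v ^ 2 * x ^ 2 / 2) : ℝ) : ℂ) =
      cexp ((-(v ^ 2 * x ^ 2 / 2) : ℝ) : ℂ) * (cexp E - 1) := by
    rw [Complex.exp_add]
    ring
  have h3 : ‖cexp E - 1‖ ≤ ‖E‖ * rexp ‖E‖ := by
    have := Complex.norm_exp_sub_sum_le_norm_mul_exp E 1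
    simpa using this
  have h4 : ‖cexp ((-(v ^ 2 * x ^ 2 / 2) : ℝ) : ℂ)‖ = rexp (-(v ^ 2 * x ^ 2 / 2)) := by
    rw [Complex.norm_exp, Complex.ofReal_re]
  have h5 : C1 * v ^ 2 * |x| ^ 3 ≤ v ^ 2 * x ^ 2 / 4 := by
    have h6 : C1 * |x| ≤ 1 / 4 := by
      have := mul_le_mul_of_nonneg_left hx h1.le
      have h7 : C1 * (1 / (4 * C1)) = 1 / 4 := by
        field_simp
      linarith
    have h8 : C1 * v ^ 2 * |x| ^ 3 = (C1 * |x|) * (v ^ 2 * x ^ 2) := by
      have : |x| ^ 3 = |x| * x ^ 2 := by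
        rw [← sq_abs x]
        ring
      rw [this]
      ring
    rw [h8]
    have h9 : 0 ≤ v ^ 2 * x ^ 2 := by positivity
    nlinarith
  have h10 : 0 ≤ C1 * v ^ 2 * |x| ^ 3 := by positivity
  rw [h2, norm_mul, h4]
  calc rexp (-(v ^ 2 * x ^ 2 / 2)) * ‖cexp E - 1‖
      ≤ rexp (-(v ^ 2 * x ^ 2 / 2)) * (‖E‖ * rexp ‖E‖) := by gcongr
    _ ≤ rexp (-(v ^ 2 * x ^ 2 / 2)) *
        ((C1 * v ^ 2 * |x| ^ 3) * rexp (v ^ 2 * x ^ 2 / 4)) := by
        gcongr
        exact hE.trans h5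
    _ = C1 * v ^ 2 * |x| ^ 3 * rexp (-(v ^ 2 * x ^ 2 / 4)) := by
        have : rexp (-(v ^ 2 * x ^ 2 / 4)) =
            rexp (-(v ^ 2 * x ^ 2 / 2)) * rexp (v ^ 2 * x ^ 2 / 4) := by
          rw [← Real.exp_add]
          congr 1
          ring
        rw [this]
        ring

theorem near {n : ℕ} (hn : n ≤ 2) {gx : ℝ} {C1 v x : ℝ} (hg0 : 0 ≤ gx) (hg1 : gx ≤ 2 * |x| ^ n)
    (h1 : 0 < C1) (hv : 0 < v) (hx : |x| ≤ 1 / (4 * C1)) {E : ℂ}
    (hE : ‖E‖ ≤ C1 * v ^ 2 * |x| ^ 3) :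
    rexp (-(v ^ 2 * x ^ 2 / 2)) * gx - 6146 * C1 / v ^ (1 + n) * rexp (-(v ^ 2 / 8) * x ^ 2) ≤
      (cexp (((-(v ^ 2 * x ^ 2 / 2) : ℝ) : ℂ) + E)).re * gx := by
  have h2 := local_bound h1 hx hE
  set w := cexp (((-(v ^ 2 * x ^ 2 / 2) : ℝ) : ℂ) + E) with hw
  have h3 : rexp (-(v ^ 2 * x ^ 2 / 2)) -
      C1 * v ^ 2 * |x| ^ 3 * rexp (-(v ^ 2 * x ^ 2 / 4)) ≤ w.re := by
    have h4 := (Complex.abs_re_le_norm (w - cexp ((-(v ^ 2 * x ^ 2 / 2) : ℝ) : ℂ))).trans h2
    rw [Complex.sub_re, Complex.exp_ofReal_re] at h4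
    have := (abs_le.1 h4).1
    linarith
  have h4 : C1 * v ^ 2 * |x| ^ 3 * rexp (-(v ^ 2 * x ^ 2 / 4)) * gx ≤
      6146 * C1 / v ^ (1 + n) * rexp (-(v ^ 2 / 8) * x ^ 2) := by
    have h5 := pow_le_exp hn (x := v * |x|) (by positivity)
    have h6 : (v * |x|) ^ 2 / 8 = v ^ 2 * x ^ 2 / 8 := by
      rw [mul_pow, sq_abs]
    rw [h6, mul_pow] at h5
    calc C1 * v ^ 2 * |x| ^ 3 * rexp (-(v ^ 2 * x ^ 2 / 4)) * gx
        ≤ C1 * v ^ 2 * |x| ^ 3 * rexp (-(v ^ 2 * x ^ 2 / 4)) * (2 * |x| ^ n) := by gcongr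
      _ = 2 * C1 / v ^ (1 + n) * (v ^ (3 + n) * |x| ^ (3 + n)) *
          rexp (-(v ^ 2 * x ^ 2 / 4)) := by
          have : v ^ (3 + n) = v ^ 2 * v ^ (1 + n) := by
            rw [← pow_add]
            congr 1
            omega
          rw [this, pow_add |x| 3 n]
          have h7 : v ^ (1 + n) ≠ 0 := by positivity
          field_simp
      _ ≤ 2 * C1 / v ^ (1 + n) * (3073 * rexp (v ^ 2 * x ^ 2 / 8)) *
          rexp (-(v ^ 2 * x ^ 2 / 4)) := by gcongr
      _ = 6146 * C1 / v ^ (1 + n) * rexp (-(v ^ 2 / 8) * x ^ 2) := by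
          have : rexp (-(v ^ 2 / 8) * x ^ 2) =
              rexp (v ^ 2 * x ^ 2 / 8) * rexp (-(v ^ 2 * x ^ 2 / 4)) := by
            rw [← Real.exp_add]
            congr 1
            ring
          rw [this]
          ring
  have h5 := mul_le_mul_of_nonneg_right h3 hg0
  rw [sub_mul] at h5
  linarith

theorem far {n : ℕ} (hn : n ≤ 2) {gx : ℝ} {c C2 v x t1 : ℝ} (hg0 : 0 ≤ gx)
    (hg1 : gx ≤ 2 * |x| ^ n) (hc : 0 < c) (h2 : 0 < C2) (hv : 0 < v) (ht : 0 < t1) (_ht1 : t1 ≤ 1)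
    (hx1 : t1 ≤ |x|) (hx2 : |x| ≤ π) {w : ℂ}
    (hw : ‖w‖ ≤ C2 * rexp (-(c * v ^ 2 * (1 - Real.cos x)))) :
    -(40 * C2 / (c * (1 - Real.cos t1)) ^ 2 / v ^ 4) ≤ w.re * gx := by
  have hcos : Real.cos t1 < 1 := by
    have := Real.cos_lt_cos_of_nonneg_of_le_pi (x := 0) (y := t1) le_rfl
      (by linarith [Real.pi_gt_three]) ht
    rwa [Real.cos_zero] at this
  have hcx : Real.cos x ≤ Real.cos t1 := by
    rw [← Real.cos_abs x]
    exact Real.cos_le_cos_of_nonneg_of_le_pi ht.le hx2 hx1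
  set a := c * (1 - Real.cos t1) with ha
  have ha0 : 0 < a := mul_pos hc (by linarith)
  have h3 : rexp (-(c * v ^ 2 * (1 - Real.cos x))) ≤ 2 / (a * v ^ 2) ^ 2 := by
    have h4 : rexp (-(c * v ^ 2 * (1 - Real.cos x))) ≤ rexp (-(a * v ^ 2)) := by
      apply Real.exp_le_exp.2
      rw [ha]
      have : 0 < c * v ^ 2 := by positivity
      nlinarith
    have h5 : (a * v ^ 2) ^ 2 / (Nat.factorial 2 : ℝ) ≤ rexp (a * v ^ 2) :=
      Real.pow_div_factorial_le_exp (a * v ^ 2) (by positivity) 2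
    have h6 : (Nat.factorial 2 : ℝ) = 2 := by norm_num [Nat.factorial]
    rw [h6] at h5
    refine h4.trans ?_
    rw [Real.exp_neg, inv_eq_one_div, div_le_div_iff₀ (Real.exp_pos _) (by positivity)]
    linarith
  have h7 : gx ≤ 20 := by
    refine hg1.trans ?_
    have h8 : |x| ^ n ≤ π ^ n := by gcongr
    have h9 : π ^ n ≤ π ^ 2 := pow_le_pow_right₀ (by linarith [Real.pi_gt_three]) hn
    have h10 : π ^ 2 ≤ 10 := by
      have := Real.pi_lt_d2
      have h11 := Real.pi_pos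
      nlinarith
    linarith
  have h8 : |w.re| * gx ≤ C2 * (2 / (a * v ^ 2) ^ 2) * 20 := by
    have h9 : |w.re| ≤ C2 * (2 / (a * v ^ 2) ^ 2) :=
      (Complex.abs_re_le_norm w).trans (hw.trans (by gcongr))
    gcongr
  have h9 : C2 * (2 / (a * v ^ 2) ^ 2) * 20 = 40 * C2 / a ^ 2 / v ^ 4 := by
    have h10 : a ≠ 0 := ha0.ne'
    have h11 : v ≠ 0 := hv.ne'
    field_simp
    ring
  rw [h9] at h8
  have h10 : -(|w.re| * gx) ≤ w.re * gx := by
    have := neg_abs_le w.re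
    nlinarith
  linarith

/-- the integral of `Re psi` against a weight comparable to `|x| ^ n` is positive -/
theorem core {n : ℕ} (hn : n ≤ 2) {g : ℝ → ℝ} (hgc : Continuous g) (hg0 : ∀ x, 0 ≤ g x)
    (hg1 : ∀ x, g x ≤ 2 * |x| ^ n) (hg2 : ∀ x, |x| ≤ 1 → |x| ^ n / 5 ≤ g x)
    {C1 th0 c C2 : ℝ} (h1 : 0 < C1) (h2 : 0 < th0) (h3 : 0 < c) (h4 : 0 < C2) :
    ∃ v0 : ℝ, 0 < v0 ∧ ∀ v, v0 ≤ v → ∀ ψ : ℝ → ℂ, Continuous ψ →
      (∀ x, |x| ≤ th0 → ∃ E : ℂ, ‖E‖ ≤ C1 * v ^ 2 * |x| ^ 3 ∧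
        ψ x = cexp (((-(v ^ 2 * x ^ 2 / 2) : ℝ) : ℂ) + E)) →
      (∀ x, |x| ≤ π → ‖ψ x‖ ≤ C2 * rexp (-(c * v ^ 2 * (1 - Real.cos x)))) →
      0 < ∫ x in (-π)..π, (ψ x).re * g x := by
  set t1 : ℝ := min (min th0 (1 / (4 * C1))) 1 with ht1
  have ht0 : 0 < t1 := by
    rw [ht1]
    have : 0 < 1 / (4 * C1) := by positivity
    exact lt_min (lt_min h2 this) one_pos
  have ht11 : t1 ≤ 1 := min_le_right _ _
  have htth : t1 ≤ th0 := (min_le_left _ _).trans (min_le_left _ _)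
  have htC : t1 ≤ 1 / (4 * C1) := (min_le_left _ _).trans (min_le_right _ _)
  set K1 : ℝ := 6146 * C1 with hK1
  set K2 : ℝ := 40 * C2 / (c * (1 - Real.cos t1)) ^ 2 with hK2
  have hK1p : 0 < K1 := by positivity
  have hcos : Real.cos t1 < 1 := by
    have := Real.cos_lt_cos_of_nonneg_of_le_pi (x := 0) (y := t1) le_rfl
      (by linarith [Real.pi_gt_three]) ht0
    rwa [Real.cos_zero] at this
  have hK2p : 0 < K2 := by
    have : 0 < 1 - Real.cos t1 := by linarith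
    positivity
  refine ⟨1 / t1 + 80 * (6 * K1 + 7 * K2) + 1, by positivity, fun v hv ψ hψ hloc htail => ?_⟩
  have hv1 : 1 / t1 ≤ v := by
    have : 0 < 80 * (6 * K1 + 7 * K2) + 1 := by positivity
    linarith
  have hv0 : 0 < v := lt_of_lt_of_le (by positivity) hv1
  have hvt : 1 / v ≤ t1 := by
    rw [div_le_iff₀ hv0]
    rw [div_le_iff₀ ht0] at hv1
    linarith
  have hvone : 1 ≤ v := by
    have : 1 ≤ 1 / t1 := by
      rw [le_div_iff₀ ht0]
      linarith
    linarith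
  have hvbig : 80 * (6 * K1 + 7 * K2) < v := by
    have : 0 < 1 / t1 := by positivity
    linarith
  have hpi3 := Real.pi_gt_three
  -- the integrand plus the error terms
  set F : ℝ → ℝ := fun x => (ψ x).re * g x + K1 / v ^ (1 + n) * rexp (-(v ^ 2 / 8) * x ^ 2) +
    K2 / v ^ 4 with hF
  have hFc : Continuous F := by
    rw [hF]
    have : Continuous fun x => (ψ x).re := Complex.continuous_re.comp hψ
    fun_prop
  have hnear : ∀ x, |x| ≤ t1 → rexp (-(v ^ 2 * x ^ 2 / 2)) * g x ≤ F x := fun x hx => by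
    obtain ⟨E, hE, hψx⟩ := hloc x (hx.trans htth)
    have h5 := near hn (hg0 x) (hg1 x) h1 hv0 (hx.trans htC) hE
    rw [← hψx] at h5
    have h6 : 0 < K2 / v ^ 4 := by positivity
    simp only [hF]
    linarith
  have hF0 : ∀ x, |x| ≤ π → 0 ≤ F x := fun x hx => by
    rcases le_total |x| t1 with h | h
    · refine le_trans ?_ (hnear x h)
      have := hg0 x
      positivity
    · have h5 := far hn (hg0 x) (hg1 x) h3 h4 hv0 ht0 ht11 h hx (htail x hx)
      have h6 : 0 ≤ K1 / v ^ (1 + n) * rexp (-(v ^ 2 / 8) * x ^ 2) := by positivity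
      simp only [hF]
      linarith
  have hFlow : ∀ x, 1 / (2 * v) ≤ x → x ≤ 1 / v → 1 / (40 * v ^ n) ≤ F x := fun x hx1 hx2 => by
    have hx0 : 0 < x := lt_of_lt_of_le (by positivity) hx1
    have habs : |x| = x := abs_of_pos hx0
    have hxt : |x| ≤ t1 := by rw [habs]; exact hx2.trans hvt
    refine le_trans ?_ (hnear x hxt)
    have h5 : 1 / 2 ≤ rexp (-(v ^ 2 * x ^ 2 / 2)) := by
      have h6 : v ^ 2 * x ^ 2 ≤ 1 := by
        have h7 : v * x ≤ 1 := by
          rw [le_div_iff₀ hv0] at hx2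
          linarith
        have h8 : 0 ≤ v * x := by positivity
        calc v ^ 2 * x ^ 2 = (v * x) ^ 2 := by ring
          _ ≤ 1 := by nlinarith
      have h7 := Real.add_one_le_exp (-(v ^ 2 * x ^ 2 / 2))
      linarith
    have h6 : (1 / (2 * v)) ^ n / 5 ≤ g x := by
      refine le_trans ?_ (hg2 x (hxt.trans ht11))
      rw [habs]
      gcongr
    have h7 : 1 / (20 * v ^ n) ≤ (1 / (2 * v)) ^ n / 5 := by
      have h8 : (2 : ℝ) ^ n ≤ 4 := by
        calc (2 : ℝ) ^ n ≤ 2 ^ 2 := pow_le_pow_right₀ (by norm_num) hn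
          _ = 4 := by norm_num
      rw [div_pow, one_pow, mul_pow, div_div]
      apply one_div_le_one_div_of_le (by positivity)
      have : 0 < v ^ n := by positivity
      nlinarith
    calc 1 / (40 * v ^ n) = 1 / 2 * (1 / (20 * v ^ n)) := by
          field_simp
          ring
      _ ≤ rexp (-(v ^ 2 * x ^ 2 / 2)) * g x := by
          have h9 : 0 ≤ g x := hg0 x
          have h10 : 0 < 1 / (20 * v ^ n) := by positivity
          exact mul_le_mul h5 (h7.trans h6) h10.le (Real.exp_pos _).le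
  have hlow : 1 / (80 * v ^ (n + 1)) ≤ ∫ x in (-π)..π, F x := by
    have hab : 1 / (2 * v) ≤ 1 / v := by
      apply one_div_le_one_div_of_le hv0
      linarith
    have h5 : ∫ x in (1 / (2 * v))..(1 / v), (1 / (40 * v ^ n) : ℝ) ≤
        ∫ x in (1 / (2 * v))..(1 / v), F x := by
      apply intervalIntegral.integral_mono_on hab (by simp) (hFc.intervalIntegrable _ _)
      intro x hx
      exact hFlow x hx.1 hx.2
    have h6 : ∫ x in (1 / (2 * v))..(1 / v), F x ≤ ∫ x in (-π)..π, F x := by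
      apply intervalIntegral.integral_mono_interval _ hab _ _ (hFc.intervalIntegrable _ _)
      · have : 0 < 1 / (2 * v) := by positivity
        linarith
      · linarith
      · filter_upwards [ae_restrict_mem measurableSet_Ioc] with x hx
        exact hF0 x (abs_le.2 ⟨hx.1.le, hx.2⟩)
    rw [intervalIntegral.integral_const, smul_eq_mul] at h5
    refine le_trans (le_of_eq ?_) (h5.trans h6)
    rw [pow_succ]
    field_simp
    ring
  have hsplit : ∫ x in (-π)..π, F x = (∫ x in (-π)..π, (ψ x).re * g x) +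
      K1 / v ^ (1 + n) * (∫ x in (-π)..π, rexp (-(v ^ 2 / 8) * x ^ 2)) + 2 * π * (K2 / v ^ 4) := by
    have hc1 : Continuous fun x => (ψ x).re * g x :=
      (Complex.continuous_re.comp hψ).mul hgc
    have hc2 : Continuous fun x : ℝ => K1 / v ^ (1 + n) * rexp (-(v ^ 2 / 8) * x ^ 2) := by
      fun_prop
    have e1 : ∫ x in (-π)..π, ((ψ x).re * g x +
        K1 / v ^ (1 + n) * rexp (-(v ^ 2 / 8) * x ^ 2) + K2 / v ^ 4) =
        (∫ x in (-π)..π, ((ψ x).re * g x +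
        K1 / v ^ (1 + n) * rexp (-(v ^ 2 / 8) * x ^ 2))) + ∫ x in (-π)..π, K2 / v ^ 4 :=
      intervalIntegral.integral_add ((hc1.add hc2).intervalIntegrable _ _)
        (continuous_const.intervalIntegrable _ _)
    have e2 : ∫ x in (-π)..π, ((ψ x).re * g x +
        K1 / v ^ (1 + n) * rexp (-(v ^ 2 / 8) * x ^ 2)) =
        (∫ x in (-π)..π, (ψ x).re * g x) +
        ∫ x in (-π)..π, K1 / v ^ (1 + n) * rexp (-(v ^ 2 / 8) * x ^ 2) :=
      intervalIntegral.integral_add (hc1.intervalIntegrable _ _) (hc2.intervalIntegrable _ _)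
    simp only [hF]
    rw [e1, e2, intervalIntegral.integral_const_mul, intervalIntegral.integral_const, smul_eq_mul]
    ring
  have hgauss : ∫ x in (-π)..π, rexp (-(v ^ 2 / 8) * x ^ 2) ≤ 6 / v := by
    have hb : 0 < v ^ 2 / 8 := by positivity
    have h5 : ∫ x in (-π)..π, rexp (-(v ^ 2 / 8) * x ^ 2) ≤
        ∫ x : ℝ, rexp (-(v ^ 2 / 8) * x ^ 2) := by
      rw [intervalIntegral.integral_of_le (by linarith)]
      apply setIntegral_le_integral (integrable_exp_neg_mul_sq hb)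
      filter_upwards with x
      positivity
    rw [integral_gaussian] at h5
    refine h5.trans ?_
    have h6 : π / (v ^ 2 / 8) ≤ (6 / v) ^ 2 := by
      rw [div_pow, div_div_eq_mul_div]
      apply div_le_div_of_nonneg_right _ (by positivity)
      have := Real.pi_lt_d2
      linarith
    calc √(π / (v ^ 2 / 8)) ≤ √((6 / v) ^ 2) := Real.sqrt_le_sqrt h6
      _ = 6 / v := Real.sqrt_sq (by positivity)
  -- comparison
  have h5 : K1 / v ^ (1 + n) * (∫ x in (-π)..π, rexp (-(v ^ 2 / 8) * x ^ 2)) ≤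
      6 * K1 / v ^ (n + 2) := by
    calc K1 / v ^ (1 + n) * (∫ x in (-π)..π, rexp (-(v ^ 2 / 8) * x ^ 2))
        ≤ K1 / v ^ (1 + n) * (6 / v) := by gcongr
      _ = 6 * K1 / v ^ (n + 2) := by
          rw [show n + 2 = (1 + n) + 1 by ring, pow_succ v (1 + n)]
          field_simp
  have h6 : 2 * π * (K2 / v ^ 4) ≤ 7 * K2 / v ^ (n + 2) := by
    have h7 : v ^ (n + 2) ≤ v ^ 4 := pow_le_pow_right₀ hvone (by omega)
    calc 2 * π * (K2 / v ^ 4) ≤ 7 * (K2 / v ^ 4) := by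
          have := Real.pi_lt_d2
          gcongr
          linarith
      _ ≤ 7 * (K2 / v ^ (n + 2)) := by gcongr
      _ = 7 * K2 / v ^ (n + 2) := by ring
  have h7 : 6 * K1 / v ^ (n + 2) + 7 * K2 / v ^ (n + 2) < 1 / (80 * v ^ (n + 1)) := by
    rw [← add_div, div_lt_div_iff₀ (by positivity) (by positivity)]
    have h8 : v ^ (n + 2) = v * v ^ (n + 1) := by ring
    rw [h8]
    have h9 : 0 < v ^ (n + 1) := by positivity
    nlinarith
  linarith

/-! ### from the integral to the coefficients -/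

theorem one_sub_cos_le (x : ℝ) : 1 - Real.cos x ≤ 2 * |x| ^ 2 := by
  have h1 := Real.one_sub_sq_div_two_le_cos (x := x)
  rw [sq_abs]
  nlinarith [sq_nonneg x]

theorem le_one_sub_cos {x : ℝ} (hx : |x| ≤ π) : |x| ^ 2 / 5 ≤ 1 - Real.cos x := by
  have h1 := Real.cos_le_one_sub_mul_cos_sq hx
  rw [sq_abs]
  have h2 : 1 / 5 ≤ 2 / π ^ 2 := by
    rw [div_le_div_iff₀ (by norm_num) (by positivity)]
    have := Real.pi_lt_d2
    have h11 := Real.pi_pos
    nlinarith
  have h3 := mul_le_mul_of_nonneg_right h2 (sq_nonneg x)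
  linarith

/-- the weighted integrals of `Re (val p r th * e^(-i k th))` in terms of the coefficients -/
theorem weighted (p : Polynomial ℝ) (r s : ℝ) {k : ℕ} (hk : 1 ≤ k) :
    ∫ th in (-π)..π, (val p r th * cexp (-((k : ℂ) * I) * (th : ℂ))).re *
      (1 + s * Real.cos th) = 2 * π * (p.coeff k * r ^ k + s *
        ((p.coeff (k - 1) * r ^ (k - 1) + p.coeff (k + 1) * r ^ (k + 1)) / 2)) := by
  have hcv := continuous_val p r
  have h1 : ∀ th : ℝ, (val p r th * cexp (-((k : ℂ) * I) * (th : ℂ))).re *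
      (1 + s * Real.cos th) = (val p r th * cexp (-((k : ℂ) * I) * (th : ℂ)) + (s / 2 : ℂ) *
        (val p r th * cexp (-(((k - 1 : ℕ) : ℂ) * I) * (th : ℂ)) +
        val p r th * cexp (-(((k + 1 : ℕ) : ℂ) * I) * (th : ℂ)))).re := fun th => by
    have h2 : val p r th * cexp (-((k : ℂ) * I) * (th : ℂ)) + (s / 2 : ℂ) *
        (val p r th * cexp (-(((k - 1 : ℕ) : ℂ) * I) * (th : ℂ)) +
        val p r th * cexp (-(((k + 1 : ℕ) : ℂ) * I) * (th : ℂ))) =
        (val p r th * cexp (-((k : ℂ) * I) * (th : ℂ))) * ((1 + s * Real.cos th : ℝ) : ℂ) := by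
      have h3 : cexp (-(((k - 1 : ℕ) : ℂ) * I) * (th : ℂ)) =
          cexp (-((k : ℂ) * I) * (th : ℂ)) * cexp ((th : ℂ) * I) := by
        rw [← Complex.exp_add, Nat.cast_sub hk]
        congr 1
        push_cast
        ring
      have h4 : cexp (-(((k + 1 : ℕ) : ℂ) * I) * (th : ℂ)) =
          cexp (-((k : ℂ) * I) * (th : ℂ)) * cexp (-(th : ℂ) * I) := by
        rw [← Complex.exp_add]
        congr 1
        push_cast
        ring
      rw [h3, h4]
      push_cast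
      rw [Complex.cos]
      ring
    rw [h2, Complex.re_mul_ofReal]
  simp_rw [h1]
  have hcont : ∀ m : ℕ, Continuous fun th : ℝ =>
      val p r th * cexp (-((m : ℂ) * I) * (th : ℂ)) := fun m => by
    fun_prop
  have h5 : ∫ th in (-π)..π, (val p r th * cexp (-((k : ℂ) * I) * (th : ℂ)) + (s / 2 : ℂ) *
        (val p r th * cexp (-(((k - 1 : ℕ) : ℂ) * I) * (th : ℂ)) +
        val p r th * cexp (-(((k + 1 : ℕ) : ℂ) * I) * (th : ℂ)))) =
      ((2 * π * (p.coeff k * r ^ k + s *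
        ((p.coeff (k - 1) * r ^ (k - 1) + p.coeff (k + 1) * r ^ (k + 1)) / 2)) : ℝ) : ℂ) := by
    have e1 : ∫ th in (-π)..π, (val p r th * cexp (-((k : ℂ) * I) * (th : ℂ)) + (s / 2 : ℂ) *
        (val p r th * cexp (-(((k - 1 : ℕ) : ℂ) * I) * (th : ℂ)) +
        val p r th * cexp (-(((k + 1 : ℕ) : ℂ) * I) * (th : ℂ)))) =
        (∫ th in (-π)..π, val p r th * cexp (-((k : ℂ) * I) * (th : ℂ))) +
        ∫ th in (-π)..π, (s / 2 : ℂ) *
        (val p r th * cexp (-(((k - 1 : ℕ) : ℂ) * I) * (th : ℂ)) +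
        val p r th * cexp (-(((k + 1 : ℕ) : ℂ) * I) * (th : ℂ))) :=
      intervalIntegral.integral_add ((hcont k).intervalIntegrable _ _)
        ((continuous_const.mul ((hcont (k - 1)).add (hcont (k + 1)))).intervalIntegrable _ _)
    have e2 : ∫ th in (-π)..π, (val p r th * cexp (-(((k - 1 : ℕ) : ℂ) * I) * (th : ℂ)) +
        val p r th * cexp (-(((k + 1 : ℕ) : ℂ) * I) * (th : ℂ))) =
        (∫ th in (-π)..π, val p r th * cexp (-(((k - 1 : ℕ) : ℂ) * I) * (th : ℂ))) +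
        ∫ th in (-π)..π, val p r th * cexp (-(((k + 1 : ℕ) : ℂ) * I) * (th : ℂ)) :=
      intervalIntegral.integral_add ((hcont (k - 1)).intervalIntegrable _ _)
        ((hcont (k + 1)).intervalIntegrable _ _)
    rw [e1, intervalIntegral.integral_const_mul, e2, fourier, fourier, fourier]
    push_cast
    ring
  have hcc : Continuous fun th : ℝ => val p r th * cexp (-((k : ℂ) * I) * (th : ℂ)) +
        (s / 2 : ℂ) *
        (val p r th * cexp (-(((k - 1 : ℕ) : ℂ) * I) * (th : ℂ)) +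
        val p r th * cexp (-(((k + 1 : ℕ) : ℂ) * I) * (th : ℂ))) :=
    (hcont k).add (continuous_const.mul ((hcont (k - 1)).add (hcont (k + 1))))
  have h6 := Complex.reCLM.intervalIntegral_comp_comm
    (hcc.intervalIntegrable (μ := volume) (-π) π)
  simp only [Complex.reCLM_apply] at h6
  rw [h6, h5, Complex.ofReal_re]

/-- **Saddle point lemma.** If `p` is close to its Gaussian approximation of mean `k` and
variance `V` near the point `r` of the circle `|z| = r` and is dominated by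
`exp (-c V (1 - cos th))` on the whole circle, then for large `V` the coefficients of `p`
at `k - 1`, `k`, `k + 1` are strictly log-concave. -/
theorem saddle {C1 th0 c C2 : ℝ} (h1 : 0 < C1) (h2 : 0 < th0) (h3 : 0 < c) (h4 : 0 < C2) :
    ∃ V0 : ℝ, ∀ (p : Polynomial ℝ) (r V : ℝ) (k : ℕ), 0 < r → V0 ≤ V → 0 < p.eval r →
      (∀ th : ℝ, |th| ≤ th0 → ∃ E : ℂ, ‖E‖ ≤ C1 * V * |th| ^ 3 ∧
        (p.map (algebraMap ℝ ℂ)).eval ((r : ℂ) * cexp ((th : ℂ) * I)) =
          ((p.eval r : ℝ) : ℂ) * cexp ((k : ℂ) * (th : ℂ) * I - (V : ℂ) * (th : ℂ) ^ 2 / 2 + E)) →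
      (∀ th : ℝ, |th| ≤ π →
        ‖(p.map (algebraMap ℝ ℂ)).eval ((r : ℂ) * cexp ((th : ℂ) * I))‖ ≤
          C2 * p.eval r * rexp (-(c * V * (1 - Real.cos th)))) →
      1 ≤ k → p.coeff (k - 1) * p.coeff (k + 1) < p.coeff k ^ 2 := by
  obtain ⟨v1, hv1, H1⟩ := core (n := 2) le_rfl (g := fun x => 1 + (-1) * Real.cos x)
    (by fun_prop) (fun x => by linarith [Real.cos_le_one x])
    (fun x => by linarith [one_sub_cos_le x])
    (fun x hx => by linarith [le_one_sub_cos (hx.trans (by linarith [Real.pi_gt_three]))])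
    h1 h2 h3 h4
  obtain ⟨v2, hv2, H2⟩ := core (n := 0) (by norm_num) (g := fun x => 1 + 1 * Real.cos x)
    (by fun_prop) (fun x => by linarith [Real.neg_one_le_cos x])
    (fun x => by
      rw [pow_zero]
      linarith [Real.cos_le_one x])
    (fun x hx => by
      rw [pow_zero]
      have h5 := Real.one_sub_sq_div_two_le_cos (x := x)
      have h6 : x ^ 2 ≤ 1 := by
        rw [← sq_abs]
        have := abs_nonneg x
        nlinarith
      linarith)
    h1 h2 h3 h4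
  refine ⟨max v1 v2 ^ 2, fun p r V k hr hV hp hloc htail hk => ?_⟩
  set v : ℝ := √V with hv
  have hV0 : 0 < V := lt_of_lt_of_le (by have := lt_max_of_lt_left (c := v2) hv1; positivity) hV
  have hvV : v ^ 2 = V := Real.sq_sqrt hV0.le
  have hmax : max v1 v2 ≤ v := by
    rw [hv]
    apply Real.le_sqrt_of_sq_le hV
  set P : ℝ := p.eval r with hP
  set ψ : ℝ → ℂ := fun th => ((P⁻¹ : ℝ) : ℂ) *
    (val p r th * cexp (-((k : ℂ) * I) * (th : ℂ))) with hψ
  have hcv := continuous_val p r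
  have hψc : Continuous ψ := by
    rw [hψ]
    fun_prop
  have hPC : (P : ℂ) ≠ 0 := Complex.ofReal_ne_zero.2 hp.ne'
  have hψloc : ∀ x, |x| ≤ th0 → ∃ E : ℂ, ‖E‖ ≤ C1 * v ^ 2 * |x| ^ 3 ∧
      ψ x = cexp (((-(v ^ 2 * x ^ 2 / 2) : ℝ) : ℂ) + E) := fun x hx => by
    obtain ⟨E, hE, hval⟩ := hloc x hx
    refine ⟨E, by rw [hvV]; exact hE, ?_⟩
    simp only [hψ]
    unfold val
    rw [hval, hvV]
    push_cast
    rw [mul_assoc (P : ℂ), ← Complex.exp_add, ← mul_assoc, inv_mul_cancel₀ hPC, one_mul]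
    congr 1
    ring
  have hψtail : ∀ x, |x| ≤ π → ‖ψ x‖ ≤ C2 * rexp (-(c * v ^ 2 * (1 - Real.cos x))) :=
      fun x hx => by
    have h5 := htail x hx
    simp only [hψ]
    rw [norm_mul, norm_mul, Complex.norm_real, Complex.norm_exp, Real.norm_of_nonneg (by positivity),
      hvV]
    have h6 : (-((k : ℂ) * I) * (x : ℂ)).re = 0 := by simp
    rw [h6, Real.exp_zero, mul_one]
    unfold val
    calc P⁻¹ * ‖(p.map (algebraMap ℝ ℂ)).eval ((r : ℂ) * cexp ((x : ℂ) * I))‖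
        ≤ P⁻¹ * (C2 * P * rexp (-(c * V * (1 - Real.cos x)))) := by gcongr
      _ = C2 * rexp (-(c * V * (1 - Real.cos x))) := by
          field_simp
  have hint : ∀ s : ℝ, ∫ x in (-π)..π, (ψ x).re * (1 + s * Real.cos x) =
      P⁻¹ * (2 * π * (p.coeff k * r ^ k + s *
        ((p.coeff (k - 1) * r ^ (k - 1) + p.coeff (k + 1) * r ^ (k + 1)) / 2))) := fun s => by
    rw [← weighted p r s hk, ← intervalIntegral.integral_const_mul]
    congr 1
    funext x
    simp only [hψ]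
    rw [Complex.re_ofReal_mul]
    ring
  have hA := H1 v ((le_max_left _ _).trans hmax) ψ hψc hψloc hψtail
  have hB := H2 v ((le_max_right _ _).trans hmax) ψ hψc hψloc hψtail
  rw [hint] at hA hB
  have hPinv : 0 < P⁻¹ := inv_pos.2 hp
  have hpi := Real.pi_pos
  have h2pi : 0 ≤ 2 * π := by positivity
  have hA2 := pos_of_mul_pos_right (pos_of_mul_pos_right hA hPinv.le) h2pi
  have hB2 := pos_of_mul_pos_right (pos_of_mul_pos_right hB hPinv.le) h2pi
  set a := p.coeff (k - 1) * r ^ (k - 1) with ha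
  set b := p.coeff k * r ^ k with hb
  set d := p.coeff (k + 1) * r ^ (k + 1) with hd
  have h5 : a * d < b ^ 2 := by nlinarith [sq_nonneg (a - d)]
  have h6 : a * d = p.coeff (k - 1) * p.coeff (k + 1) * (r ^ k) ^ 2 := by
    rw [ha, hd]
    obtain ⟨j, rfl⟩ := Nat.exists_eq_add_of_le hk
    rw [show 1 + j - 1 = j by omega]
    ring
  have h7 : b ^ 2 = p.coeff k ^ 2 * (r ^ k) ^ 2 := by
    rw [hb]
    ring
  rw [h6, h7] at h5
  exact lt_of_mul_lt_mul_right h5 (by positivity)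

end Pool.Agent.Helper86.EV
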